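import Pool.Agent.H58.Lit.Defs

open scoped ENNReal

namespace Pool.Agent.H58.Lit

universe u v

/-- domination criterion for Littlewood functions -/
theorem isLittlewood_of_le {Γ : Type u} [Group Γ] {f : Γ → ℂ} {h₁ h₂ : Γ → Γ → ℝ≥0∞}
    {C₁ C₂ : ℝ≥0∞} (hC₁ : C₁ < ⊤) (hC₂ : C₂ < ⊤)
    (h : ∀ x y, ‖f (x⁻¹ * y)‖ₑ ≤ h₁ x y + h₂ x y)
    (r : ∀ x, ∑' y, h₁ x y ≤ C₁) (c : ∀ y, ∑' x, h₂ x y ≤ C₂) : IsLittlewood f := by
  classical
  refine ⟨fun x y => if ‖f (x⁻¹ * y)‖ₑ ≤ 2 * h₁ x y then f (x⁻¹ * y) else 0,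
    fun x y => if ‖f (x⁻¹ * y)‖ₑ ≤ 2 * h₁ x y then 0 else f (x⁻¹ * y), ?_, ?_, ?_⟩
  · intro x y
    by_cases hh : ‖f (x⁻¹ * y)‖ₑ ≤ 2 * h₁ x y <;> simp [hh]
  · refine lt_of_le_of_lt (iSup_le (a := 2 * C₁) fun x => ?_)
      (ENNReal.mul_lt_top (by simp) hC₁)
    calc ∑' y, ‖(if ‖f (x⁻¹ * y)‖ₑ ≤ 2 * h₁ x y then f (x⁻¹ * y) else 0)‖ₑ
        ≤ ∑' y, 2 * h₁ x y := by
          refine ENNReal.tsum_le_tsum fun y => ?_
          split_ifs with hh
          · exact hh
          · simp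
      _ = 2 * ∑' y, h₁ x y := ENNReal.tsum_mul_left
      _ ≤ 2 * C₁ := by gcongr; exact r x
  · refine lt_of_le_of_lt (iSup_le (a := 2 * C₂) fun y => ?_)
      (ENNReal.mul_lt_top (by simp) hC₂)
    calc ∑' x, ‖(if ‖f (x⁻¹ * y)‖ₑ ≤ 2 * h₁ x y then 0 else f (x⁻¹ * y))‖ₑ
        ≤ ∑' x, 2 * h₂ x y := by
          refine ENNReal.tsum_le_tsum fun x => ?_
          split_ifs with hh
          · simp
          · push Not at hh
            have h3 := h x y
            have hfin : h₁ x y ≠ ⊤ := by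
              intro htop
              rw [htop] at hh
              simp at hh
            have h4 : h₁ x y ≤ h₂ x y := by
              have : h₁ x y + h₁ x y < h₁ x y + h₂ x y := by
                rw [← two_mul]; exact lt_of_lt_of_le hh h3
              exact le_of_lt ((ENNReal.add_lt_add_iff_left hfin).1 this)
            calc ‖f (x⁻¹ * y)‖ₑ ≤ h₁ x y + h₂ x y := h3
              _ ≤ h₂ x y + h₂ x y := by gcongr
              _ = 2 * h₂ x y := by rw [two_mul]
      _ = 2 * ∑' x, h₂ x y := ENNReal.tsum_mul_left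
      _ ≤ 2 * C₂ := by gcongr; exact c y

theorem IsLittlewood.exists_le {Γ : Type u} [Group Γ] {f : Γ → ℂ} (hf : IsLittlewood f) :
    ∃ f₁ f₂ : Γ → Γ → ℂ, ∃ C : ℝ≥0∞, C < ⊤ ∧ (∀ x y : Γ, f (x⁻¹ * y) = f₁ x y + f₂ x y) ∧
    (∀ x, ∑' y, ‖f₁ x y‖ₑ ≤ C) ∧ (∀ y, ∑' x, ‖f₂ x y‖ₑ ≤ C) := by
  obtain ⟨f₁, f₂, h, h1, h2⟩ := hf
  refine ⟨f₁, f₂, max _ _, max_lt h1 h2, h, fun x => ?_, fun y => ?_⟩
  · exact le_trans (le_iSup (fun x => ∑' y, ‖f₁ x y‖ₑ) x) (le_max_left _ _)
  · exact le_trans (le_iSup (fun y => ∑' x, ‖f₂ x y‖ₑ) y) (le_max_right _ _)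

/-- absolutely summable functions are Littlewood functions -/
theorem isLittlewood_of_summable {Γ : Type u} [Group Γ] {f : Γ → ℂ}
    (hf : ∑' g, ‖f g‖ₑ < ⊤) : IsLittlewood f := by
  refine isLittlewood_of_le (h₁ := fun x y => ‖f (x⁻¹ * y)‖ₑ) (h₂ := fun _ _ => 0)
    (C₁ := ∑' g, ‖f g‖ₑ) (C₂ := 0) hf (by simp) (fun x y => by simp) (fun x => ?_)
    (fun y => by simp)
  exact le_of_eq ((Equiv.mulLeft x⁻¹).tsum_eq (fun g => ‖f g‖ₑ))

/-- all finite exponents which work -/
def Good (Γ : Type u) [Group Γ] (p : ℝ≥0∞) : Prop :=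
  0 < p ∧ p < ⊤ ∧ ∀ f : Γ → ℂ, IsLittlewood f → Memℓp f p

theorem Lit_def (Γ : Type u) [Group Γ] : Lit Γ = sInf {p : ℝ≥0∞ | Good Γ p} := rfl

theorem Good.mono {Γ : Type u} [Group Γ] {p q : ℝ≥0∞} (h : Good Γ p) (hpq : p ≤ q)
    (hq : q < ⊤) : Good Γ q :=
  ⟨lt_of_lt_of_le h.1 hpq, hq, fun f hf => (h.2.2 f hf).of_exponent_ge hpq⟩

theorem Lit_le_of_good {Γ : Type u} [Group Γ] {p : ℝ≥0∞} (h : Good Γ p) : Lit Γ ≤ p :=
  sInf_le h

theorem good_of_lit_lt {Γ : Type u} [Group Γ] {p : ℝ≥0∞} (h : Lit Γ < p) (hp : p < ⊤) :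
    Good Γ p := by
  obtain ⟨q, hq, hqp⟩ := sInf_lt_iff.1 h
  exact Good.mono hq hqp.le hp

theorem memℓp_iff_tsum {α : Type v} {f : α → ℂ} {p : ℝ≥0∞} (h0 : 0 < p) (hp : p < ⊤) :
    Memℓp f p ↔ ∑' a, ‖f a‖ₑ ^ p.toReal ≠ ⊤ := by
  have hpos : 0 < p.toReal := ENNReal.toReal_pos h0.ne' hp.ne
  rw [memℓp_gen_iff hpos]
  have h1 : ∀ a, ‖f a‖ₑ ^ p.toReal = ENNReal.ofReal (‖f a‖ ^ p.toReal) := by
    intro a
    rw [← ofReal_norm, ENNReal.ofReal_rpow_of_nonneg (norm_nonneg _) hpos.le]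
  simp_rw [h1]
  constructor
  · intro hs
    rw [← ENNReal.ofReal_tsum_of_nonneg (fun a => by positivity) hs]
    exact ENNReal.ofReal_ne_top
  · intro hs
    have := ENNReal.summable_toReal hs
    refine this.congr fun a => ?_
    rw [ENNReal.toReal_ofReal (by positivity)]

/-- the Littlewood exponent of an infinite group is at least one -/
theorem one_le_lit (Γ : Type u) [Group Γ] [Infinite Γ] : 1 ≤ Lit Γ := by
  classical
  refine le_sInf fun p hp => ?_
  obtain ⟨h0, htop, hall⟩ := hp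
  by_contra hlt
  push Not at hlt
  have hpos : 0 < p.toReal := ENNReal.toReal_pos h0.ne' htop.ne
  have hlt1 : p.toReal < 1 := by
    have := (ENNReal.toReal_lt_toReal htop.ne (by simp : (1 : ℝ≥0∞) ≠ ⊤)).2 hlt
    simpa using this
  let e : ℕ ↪ Γ := Infinite.natEmbedding Γ
  let a : ℕ → ℂ := fun n => (((n : ℝ) + 1) ^ (-(1 / p.toReal)) : ℝ)
  let f : Γ → ℂ := Function.extend e a 0
  have hfe : ∀ n, f (e n) = a n := fun n => e.injective.extend_apply a 0 n
  have hf0 : ∀ g, g ∉ Set.range e → f g = 0 := by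
    intro g hg
    have : ¬ ∃ n, e n = g := by simpa using hg
    simp [f, Function.extend_apply' _ _ _ this]
  have hts : ∀ r : ℝ, 0 < r → ∑' g, ‖f g‖ₑ ^ r = ∑' n, ‖a n‖ₑ ^ r := by
    intro r hr
    rw [← Function.Injective.tsum_eq e.injective]
    · simp [hfe]
    · intro g hg
      by_contra hgn
      apply hg
      simp [hf0 g hgn, ENNReal.zero_rpow_of_pos hr]
  have hnorm : ∀ n, ‖a n‖ₑ = ENNReal.ofReal (((n : ℝ) + 1) ^ (-(1 / p.toReal))) := by
    intro n
    have : (0 : ℝ) ≤ ((n : ℝ) + 1) ^ (-(1 / p.toReal)) := by positivity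
    rw [← ofReal_norm]
    congr 1
    simp only [a, Complex.norm_real, Real.norm_eq_abs]
    exact abs_of_nonneg this
  have hL : IsLittlewood f := by
    apply isLittlewood_of_summable
    have h1 := hts 1 one_pos
    simp only [ENNReal.rpow_one] at h1
    rw [h1]
    simp_rw [hnorm]
    have hsum : Summable fun n : ℕ => ((n : ℝ) + 1) ^ (-(1 / p.toReal)) := by
      have h2 : Summable fun n : ℕ => ((n : ℝ)) ^ (-(1 / p.toReal)) := by
        rw [Real.summable_nat_rpow]
        have : 1 < 1 / p.toReal := by rw [lt_div_iff₀ hpos]; linarith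
        linarith
      have h3 := (summable_nat_add_iff 1).2 h2
      refine h3.congr fun n => ?_
      push_cast; rfl
    rw [← ENNReal.ofReal_tsum_of_nonneg (fun n => by positivity) hsum]
    exact ENNReal.ofReal_lt_top
  have := (memℓp_iff_tsum h0 htop).1 (hall f hL)
  apply this
  rw [hts _ hpos]
  simp_rw [hnorm]
  have h4 : ∀ n : ℕ, (ENNReal.ofReal (((n : ℝ) + 1) ^ (-(1 / p.toReal)))) ^ p.toReal
      = ENNReal.ofReal (1 / ((n : ℝ) + 1)) := by
    intro n
    rw [ENNReal.ofReal_rpow_of_nonneg (by positivity) hpos.le, ← Real.rpow_mul (by positivity)]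
    congr 1
    rw [neg_mul, one_div_mul_cancel hpos.ne', Real.rpow_neg_one, one_div]
  simp_rw [h4]
  by_contra hne
  have h5 := ENNReal.summable_toReal hne
  have h6 : Summable fun n : ℕ => 1 / ((n : ℝ) + 1) := by
    refine h5.congr fun n => ?_
    rw [ENNReal.toReal_ofReal (by positivity)]
  have h7 : Summable fun n : ℕ => 1 / (n : ℝ) := by
    rw [← summable_nat_add_iff 1]
    refine h6.congr fun n => ?_
    push_cast; rfl
  exact Real.not_summable_one_div_natCast h7

/-- the Littlewood exponent of a quotient is at most that of the group -/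
theorem lit_le_of_surjective {G Q : Type u} [Group G] [Group Q] (φ : G →* Q)
    (hφ : Function.Surjective φ) : Lit Q ≤ Lit G := by
  classical
  refine sInf_le_sInf fun p hp => ?_
  obtain ⟨h0, htop, hall⟩ := hp
  refine ⟨h0, htop, fun f hf => ?_⟩
  obtain ⟨s, hs⟩ := hφ.hasRightInverse
  have hsinj : Function.Injective s := hs.injective
  obtain ⟨f₁, f₂, C, hC, hff, hr, hc⟩ := hf.exists_le
  let F : G → ℂ := fun g => if s (φ g) = g then f (φ g) else 0
  have hF : IsLittlewood F := by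
    refine isLittlewood_of_le (C₁ := C) (C₂ := C) hC hC
      (h₁ := fun x y => if s (φ (x⁻¹ * y)) = x⁻¹ * y then ‖f₁ (φ x) (φ y)‖ₑ else 0)
      (h₂ := fun x y => if s (φ (x⁻¹ * y)) = x⁻¹ * y then ‖f₂ (φ x) (φ y)‖ₑ else 0) ?_ ?_ ?_
    · intro x y
      simp only [F]
      split_ifs with h
      · rw [map_mul, map_inv, hff]
        exact enorm_add_le _ _
      · simp
    · intro x
      refine le_trans ?_ (hr (φ x))
      -- y = x * s q
      have hinj : Function.Injective (fun q : Q => x * s ((φ x)⁻¹ * q)) := by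
        intro q q' hqq
        have := hsinj (mul_left_cancel hqq)
        exact mul_left_cancel this
      rw [← Function.Injective.tsum_eq hinj]
      · refine ENNReal.tsum_le_tsum fun q => ?_
        split_ifs with h
        · rw [map_mul, hs]; simp
        · simp
      · intro y hy
        simp only [Function.mem_support, ne_eq, ite_eq_right_iff, Classical.not_imp] at hy
        refine ⟨φ y, ?_⟩
        simp only
        have := hy.1
        rw [map_mul, map_inv] at this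
        rw [this]; simp
    · intro y
      refine le_trans ?_ (hc (φ y))
      have hinj : Function.Injective (fun q : Q => y * (s (q⁻¹ * φ y))⁻¹) := by
        intro q q' hqq
        have := hsinj (inv_injective (mul_left_cancel hqq))
        exact inv_injective (mul_right_cancel this)
      rw [← Function.Injective.tsum_eq hinj]
      · refine ENNReal.tsum_le_tsum fun q => ?_
        split_ifs with h
        · rw [map_mul, map_inv, hs]; simp
        · simp
      · intro x hx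
        simp only [Function.mem_support, ne_eq, ite_eq_right_iff, Classical.not_imp] at hx
        refine ⟨φ x, ?_⟩
        simp only
        have := hx.1
        rw [map_mul, map_inv] at this
        rw [this]; simp
  have hm := (memℓp_iff_tsum h0 htop).1 (hall F hF)
  rw [memℓp_iff_tsum h0 htop]
  intro hbad
  apply hm
  rw [eq_top_iff, ← hbad]
  calc ∑' q, ‖f q‖ₑ ^ p.toReal = ∑' q, ‖F (s q)‖ₑ ^ p.toReal := by
        refine tsum_congr fun q => ?_
        simp only [F, hs q, if_true]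
    _ ≤ ∑' g, ‖F g‖ₑ ^ p.toReal :=
        ENNReal.tsum_comp_le_tsum_of_injective hsinj (fun g => ‖F g‖ₑ ^ p.toReal)

end Pool.Agent.H58.Lit
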