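import Mathlib

open scoped ENNReal

namespace Pool.Agent.H58.Lit

universe u

/-- The space `T₁(Γ)` of Littlewood functions: `f (x⁻¹ y) = f₁ x y + f₂ x y` with
`sup_x ∑_y |f₁ x y| < ∞` and `sup_y ∑_x |f₂ x y| < ∞`. -/
def IsLittlewood {Γ : Type u} [Group Γ] (f : Γ → ℂ) : Prop :=
  ∃ f₁ f₂ : Γ → Γ → ℂ, (∀ x y : Γ, f (x⁻¹ * y) = f₁ x y + f₂ x y) ∧
    (⨆ x, ∑' y, ‖f₁ x y‖ₑ) < ⊤ ∧ (⨆ y, ∑' x, ‖f₂ x y‖ₑ) < ⊤

/-- The Littlewood exponent `Lit(Γ) = inf {p > 0 : T₁(Γ) ⊆ ℓᵖ(Γ)}`. -/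
noncomputable def Lit (Γ : Type u) [Group Γ] : ℝ≥0∞ :=
  sInf {p : ℝ≥0∞ | 0 < p ∧ p < ⊤ ∧ ∀ f : Γ → ℂ, IsLittlewood f → Memℓp f p}

/-- `Γ` is unitarisable: every uniformly bounded representation on a Hilbert space is similar to
a unitary one. -/
def Unitarisable (Γ : Type u) [Group Γ] : Prop :=
  ∀ (H : Type u) [NormedAddCommGroup H] [InnerProductSpace ℂ H] [CompleteSpace H]
    (π : Γ →* (H →L[ℂ] H)), (∃ C : ℝ, ∀ g : Γ, ‖π g‖ ≤ C) →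
    ∃ S : H ≃L[ℂ] H, ∀ g : Γ,
      (S : H →L[ℂ] H) ∘L π g ∘L (S.symm : H →L[ℂ] H) ∈ unitary (H →L[ℂ] H)

/-- boundedness of a real function -/
def Bdd {α : Type*} (f : α → ℝ) : Prop := ∃ C : ℝ, ∀ x, |f x| ≤ C

/-- `Γ` is amenable: there is a left-invariant mean on the bounded real functions on `Γ`. -/
def Amenable (Γ : Type u) [Group Γ] : Prop :=
  ∃ m : (Γ → ℝ) → ℝ,
    (∀ f g, Bdd f → Bdd g → m (f + g) = m f + m g) ∧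
    (∀ (c : ℝ) f, Bdd f → m (c • f) = c * m f) ∧
    (∀ f, Bdd f → (∀ x, 0 ≤ f x) → 0 ≤ m f) ∧
    m (fun _ => 1) = 1 ∧
    ∀ (g : Γ) f, Bdd f → m (fun x => f (g * x)) = m f

end Pool.Agent.H58.Lit
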