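import Pool.Agent.H58.Lit.Basic

open scoped ENNReal

namespace Pool.Agent.H58.Lit

universe u v

theorem Bdd.add {α : Type*} {f g : α → ℝ} (hf : Bdd f) (hg : Bdd g) : Bdd (f + g) := by
  obtain ⟨a, ha⟩ := hf
  obtain ⟨b, hb⟩ := hg
  exact ⟨a + b, fun x => (abs_add_le _ _).trans (add_le_add (ha x) (hb x))⟩

theorem Bdd.smul {α : Type*} {f : α → ℝ} (c : ℝ) (hf : Bdd f) : Bdd (c • f) := by
  obtain ⟨a, ha⟩ := hf
  refine ⟨|c| * a, fun x => ?_⟩
  simp only [Pi.smul_apply, smul_eq_mul, abs_mul]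
  exact mul_le_mul_of_nonneg_left (ha x) (abs_nonneg _)

theorem Bdd.const {α : Type*} (c : ℝ) : Bdd (fun _ : α => c) := ⟨|c|, fun _ => le_rfl⟩

theorem Bdd.comp {α β : Type*} {f : α → ℝ} (hf : Bdd f) (e : β → α) : Bdd (fun x => f (e x)) := by
  obtain ⟨a, ha⟩ := hf
  exact ⟨a, fun x => ha _⟩

theorem Bdd.of_nonneg_le {α : Type*} {f : α → ℝ} {C : ℝ} (h0 : ∀ x, 0 ≤ f x)
    (hC : ∀ x, f x ≤ C) : Bdd f := ⟨C, fun x => by rw [abs_of_nonneg (h0 x)]; exact hC x⟩

/-- a right-invariant mean, with its properties bundled -/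
structure RMean (K : Type u) [Group K] where
  m : (K → ℝ) → ℝ
  add : ∀ f g, Bdd f → Bdd g → m (f + g) = m f + m g
  smul : ∀ (c : ℝ) f, Bdd f → m (c • f) = c * m f
  nonneg : ∀ f, Bdd f → (∀ x, 0 ≤ f x) → 0 ≤ m f
  one : m (fun _ => 1) = 1
  inv : ∀ (g : K) f, Bdd f → m (fun x => f (x * g)) = m f

theorem Amenable.rmean {K : Type u} [Group K] (h : Amenable K) : Nonempty (RMean K) := by
  obtain ⟨m, hadd, hsmul, hnn, hone, hinv⟩ := h
  refine ⟨⟨fun f => m (fun x => f x⁻¹), ?_, ?_, ?_, hone, ?_⟩⟩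
  · intro f g hf hg
    exact hadd _ _ (hf.comp _) (hg.comp _)
  · intro c f hf
    exact hsmul c _ (hf.comp _)
  · intro f hf h0
    exact hnn _ (hf.comp _) fun x => h0 _
  · intro g f hf
    have := hinv g⁻¹ (fun x => f x⁻¹) (hf.comp _)
    simp only [mul_inv_rev, inv_inv] at this
    simpa using this

namespace RMean

variable {K : Type u} [Group K] (M : RMean K)

theorem const (c : ℝ) : M.m (fun _ => c) = c := by
  have := M.smul c (fun _ => 1) (Bdd.const 1)
  rw [M.one] at this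
  simpa [Pi.smul_def] using this

theorem mono {f g : K → ℝ} (hf : Bdd f) (hg : Bdd g) (h : ∀ x, f x ≤ g x) : M.m f ≤ M.m g := by
  have h1 := M.add f (g + (-1 : ℝ) • f) hf (hg.add (hf.smul _))
  have h2 := M.nonneg (g + (-1 : ℝ) • f) (hg.add (hf.smul _)) (fun x => by
    simp only [Pi.add_apply, Pi.smul_apply, smul_eq_mul]; linarith [h x])
  have h3 : f + (g + (-1 : ℝ) • f) = g := by
    funext x; simp
  rw [h3] at h1
  linarith

theorem sum {ι : Type*} (s : Finset ι) (f : ι → K → ℝ) (hf : ∀ i ∈ s, Bdd (f i)) :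
    Bdd (fun x => ∑ i ∈ s, f i x) ∧ M.m (fun x => ∑ i ∈ s, f i x) = ∑ i ∈ s, M.m (f i) := by
  classical
  induction s using Finset.induction_on with
  | empty => simpa using ⟨Bdd.const 0, M.const 0⟩
  | insert a s ha ih =>
    obtain ⟨hb, hs⟩ := ih (fun i hi => hf i (Finset.mem_insert_of_mem hi))
    have h1 : (fun x => ∑ i ∈ insert a s, f i x) = f a + fun x => ∑ i ∈ s, f i x := by
      funext x; simp [Finset.sum_insert ha]
    rw [h1, Finset.sum_insert ha]
    have hfa := hf a (Finset.mem_insert_self a s)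
    exact ⟨hfa.add hb, by rw [M.add _ _ hfa hb, hs]⟩

/-- the mean in the extended nonnegative reals -/
theorem tsum_le {ι : Type*} (h : ι → K → ℝ) (h0 : ∀ i l, 0 ≤ h i l) {C : ℝ≥0∞} (hC : C < ⊤)
    (hs : ∀ l, ∑' i, ENNReal.ofReal (h i l) ≤ C) :
    ∑' i, ENNReal.ofReal (M.m (h i)) ≤ C := by
  have hle : ∀ i l, h i l ≤ C.toReal := by
    intro i l
    have h1 : ENNReal.ofReal (h i l) ≤ C := le_trans (ENNReal.le_tsum i) (hs l)
    exact (ENNReal.ofReal_le_iff_le_toReal hC.ne).1 h1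
  have hb : ∀ i, Bdd (h i) := fun i => Bdd.of_nonneg_le (h0 i) (hle i)
  rw [ENNReal.tsum_eq_iSup_sum]
  refine iSup_le fun s => ?_
  rw [← ENNReal.ofReal_sum_of_nonneg (fun i _ => M.nonneg _ (hb i) (h0 i))]
  obtain ⟨hbs, hsum⟩ := M.sum s h (fun i _ => hb i)
  rw [← hsum]
  rw [ENNReal.ofReal_le_iff_le_toReal hC.ne]
  calc M.m (fun x => ∑ i ∈ s, h i x) ≤ M.m (fun _ => C.toReal) := by
        refine M.mono hbs (Bdd.const _) fun l => ?_
        rw [← ENNReal.ofReal_le_iff_le_toReal hC.ne,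
          ENNReal.ofReal_sum_of_nonneg (fun i _ => h0 i l)]
        exact le_trans (ENNReal.sum_le_tsum s) (hs l)
    _ = C.toReal := M.const _

end RMean

theorem tsum_rpow_le {ι : Type*} (f : ι → ℝ≥0∞) {p : ℝ} (hp : 1 ≤ p) :
    ∑' i, f i ^ p ≤ (∑' i, f i) ^ p := by
  set S := ∑' i, f i with hS
  have hp0 : 0 < p := by linarith
  by_cases hT : S = ⊤
  · rw [hT, ENNReal.top_rpow_of_pos hp0]; exact le_top
  by_cases h0 : S = 0
  · have : ∀ i, f i = 0 := by
      intro i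
      exact le_antisymm (h0 ▸ ENNReal.le_tsum i) bot_le
    simp [this, ENNReal.zero_rpow_of_pos hp0]
  have key : ∀ i, f i ^ p ≤ f i * S ^ (p - 1) := by
    intro i
    by_cases hi : f i = 0
    · simp [hi, ENNReal.zero_rpow_of_pos hp0]
    have hit : f i ≠ ⊤ := ne_top_of_le_ne_top hT (ENNReal.le_tsum i)
    have h1 : f i ^ p = f i * f i ^ (p - 1) := by
      conv_lhs => rw [show p = 1 + (p - 1) by ring]
      rw [ENNReal.rpow_add _ _ hi hit, ENNReal.rpow_one]
    rw [h1]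
    gcongr
    exact ENNReal.le_tsum i
  calc ∑' i, f i ^ p ≤ ∑' i, f i * S ^ (p - 1) := ENNReal.tsum_le_tsum key
    _ = S * S ^ (p - 1) := ENNReal.tsum_mul_right
    _ = S ^ p := by
      conv_rhs => rw [show p = 1 + (p - 1) by ring]
      rw [ENNReal.rpow_add _ _ h0 hT, ENNReal.rpow_one]

/-- Extensions with amenable kernel: exponents `≥ 1` which are good for the quotient are good
for the group. -/
theorem good_of_extension {G : Type u} {Q : Type v} [Group G] [Group Q] (N : Subgroup G)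
    (φ : G →* Q) (hφ : Function.Surjective φ) (hker : ∀ g, g ∈ N ↔ φ g = 1) (hN : Amenable N)
    {p : ℝ≥0∞} (hp : 1 ≤ p) (hg : Good Q p) : Good G p := by
  classical
  obtain ⟨M⟩ := hN.rmean
  obtain ⟨h0, htop, hall⟩ := hg
  refine ⟨h0, htop, fun f hf => ?_⟩
  obtain ⟨s, hs⟩ := hφ.hasRightInverse
  obtain ⟨f₁, f₂, C, hC, hff, hr, hc⟩ := hf.exists_le
  have hb1 : ∀ x y, ‖f₁ x y‖ ≤ C.toReal := by
    intro x y
    have h1 : ENNReal.ofReal ‖f₁ x y‖ ≤ C := by
      rw [ofReal_norm]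
      exact le_trans (ENNReal.le_tsum y) (hr x)
    exact (ENNReal.ofReal_le_iff_le_toReal hC.ne).1 h1
  have hb2 : ∀ x y, ‖f₂ x y‖ ≤ C.toReal := by
    intro x y
    have h1 : ENNReal.ofReal ‖f₂ x y‖ ≤ C := by
      rw [ofReal_norm]
      exact le_trans (ENNReal.le_tsum x) (hc y)
    exact (ENNReal.ofReal_le_iff_le_toReal hC.ne).1 h1
  -- the fibre sums
  let F : Q → ℝ≥0∞ := fun q => ∑' n : N, ‖f ((n : G) * s q)‖ₑ
  let H₁ : Q → Q → ℝ≥0∞ := fun a b =>
    ∑' n : N, ENNReal.ofReal (M.m fun l => ‖f₁ ((l : G) * s a) ((l : G) * n * s b)‖)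
  let H₂ : Q → Q → ℝ≥0∞ := fun a b =>
    ∑' n : N, ENNReal.ofReal (M.m fun l => ‖f₂ ((l : G) * s a) ((l : G) * n * s b)‖)
  have hFH : ∀ a b, F (a⁻¹ * b) ≤ H₁ a b + H₂ a b := by
    intro a b
    have hmem : ∀ n : N, s a * n * s (a⁻¹ * b) * (s b)⁻¹ ∈ N := by
      intro n
      rw [hker]
      have hn : φ n = 1 := (hker _).1 n.2
      simp [hs a, hs b, hs (a⁻¹ * b), hn]
    let j : N → N := fun n => ⟨s a * n * s (a⁻¹ * b) * (s b)⁻¹, hmem n⟩
    have hj : Function.Injective j := by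
      intro n n' hnn
      have h1 := congrArg Subtype.val hnn
      simp only [j, mul_left_inj, mul_right_inj] at h1
      exact Subtype.ext h1
    have h2 : ∀ n : N, (n : G) * s (a⁻¹ * b) = (s a)⁻¹ * (j n : G) * s b := by
      intro n
      simp only [j]
      group
    calc F (a⁻¹ * b) = ∑' n : N, ‖f ((s a)⁻¹ * (j n : G) * s b)‖ₑ := by
          simp only [F]
          exact tsum_congr fun n => by rw [h2 n]
      _ ≤ ∑' n : N, ‖f ((s a)⁻¹ * (n : G) * s b)‖ₑ :=
          ENNReal.tsum_comp_le_tsum_of_injective hj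
            (fun n : N => ‖f ((s a)⁻¹ * (n : G) * s b)‖ₑ)
      _ ≤ ∑' n : N, (ENNReal.ofReal (M.m fun l => ‖f₁ ((l : G) * s a) ((l : G) * n * s b)‖)
          + ENNReal.ofReal (M.m fun l => ‖f₂ ((l : G) * s a) ((l : G) * n * s b)‖)) := by
          refine ENNReal.tsum_le_tsum fun n => ?_
          have hB1 : Bdd fun l : N => ‖f₁ ((l : G) * s a) ((l : G) * n * s b)‖ :=
            Bdd.of_nonneg_le (fun _ => norm_nonneg _) (fun _ => hb1 _ _)
          have hB2 : Bdd fun l : N => ‖f₂ ((l : G) * s a) ((l : G) * n * s b)‖ :=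
            Bdd.of_nonneg_le (fun _ => norm_nonneg _) (fun _ => hb2 _ _)
          rw [← ENNReal.ofReal_add (M.nonneg _ hB1 fun _ => norm_nonneg _)
            (M.nonneg _ hB2 fun _ => norm_nonneg _), ← M.add _ _ hB1 hB2, ← ofReal_norm]
          apply ENNReal.ofReal_le_ofReal
          rw [← M.const ‖f ((s a)⁻¹ * (n : G) * s b)‖]
          refine M.mono (Bdd.const _) (hB1.add hB2) fun l => ?_
          have h3 := hff ((l : G) * s a) ((l : G) * n * s b)
          have h4 : ((l : G) * s a)⁻¹ * ((l : G) * n * s b) = (s a)⁻¹ * (n : G) * s b := by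
            group
          rw [h4] at h3
          rw [h3]
          exact norm_add_le _ _
      _ = H₁ a b + H₂ a b := ENNReal.tsum_add
  have hrow : ∀ a, ∑' b, H₁ a b ≤ C := by
    intro a
    simp only [H₁]
    rw [← ENNReal.tsum_prod (f := fun (b : Q) (n : N) =>
      ENNReal.ofReal (M.m fun l => ‖f₁ ((l : G) * s a) ((l : G) * n * s b)‖))]
    refine M.tsum_le (fun (i : Q × N) (l : N) => ‖f₁ ((l : G) * s a) ((l : G) * i.2 * s i.1)‖)
      (fun _ _ => norm_nonneg _) hC fun l => ?_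
    refine le_trans ?_ (hr ((l : G) * s a))
    have hinj : Function.Injective (fun i : Q × N => (l : G) * i.2 * s i.1) := by
      rintro ⟨b, n⟩ ⟨b', n'⟩ hbb
      simp only at hbb
      have h1 := congrArg φ hbb
      have hn : φ n = 1 := (hker _).1 n.2
      have hn' : φ n' = 1 := (hker _).1 n'.2
      simp only [map_mul, hn, hn', hs b, hs b', mul_one, mul_right_inj] at h1
      subst h1
      simp only [mul_left_inj, mul_right_inj] at hbb
      rw [Subtype.ext hbb]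
    refine le_trans (le_of_eq (tsum_congr fun i => ?_))
      (ENNReal.tsum_comp_le_tsum_of_injective hinj (fun y => ‖f₁ ((l : G) * s a) y‖ₑ))
    rw [ofReal_norm]
  have hcol : ∀ b, ∑' a, H₂ a b ≤ C := by
    intro b
    simp only [H₂]
    have hshift : ∀ (a : Q) (n : N),
        (M.m fun l => ‖f₂ ((l : G) * s a) ((l : G) * n * s b)‖)
          = M.m fun l => ‖f₂ ((l : G) * (n : G)⁻¹ * s a) ((l : G) * s b)‖ := by
      intro a n
      have hB2 : Bdd fun l : N => ‖f₂ ((l : G) * s a) ((l : G) * n * s b)‖ :=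
        Bdd.of_nonneg_le (fun _ => norm_nonneg _) (fun _ => hb2 _ _)
      have h1 := M.inv n⁻¹ _ hB2
      rw [← h1]
      congr 1
      funext l
      simp
    simp_rw [hshift]
    rw [← ENNReal.tsum_prod (f := fun (a : Q) (n : N) =>
      ENNReal.ofReal (M.m fun l => ‖f₂ ((l : G) * (n : G)⁻¹ * s a) ((l : G) * s b)‖))]
    refine M.tsum_le (fun (i : Q × N) (l : N) =>
      ‖f₂ ((l : G) * (i.2 : G)⁻¹ * s i.1) ((l : G) * s b)‖)
      (fun _ _ => norm_nonneg _) hC fun l => ?_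
    refine le_trans ?_ (hc ((l : G) * s b))
    have hinj : Function.Injective (fun i : Q × N => (l : G) * (i.2 : G)⁻¹ * s i.1) := by
      rintro ⟨b, n⟩ ⟨b', n'⟩ hbb
      simp only at hbb
      have h1 := congrArg φ hbb
      have hn : φ n = 1 := (hker _).1 n.2
      have hn' : φ n' = 1 := (hker _).1 n'.2
      simp only [map_mul, map_inv, hn, hn', hs b, hs b', inv_one, mul_one, mul_right_inj] at h1
      subst h1
      simp only [mul_left_inj, mul_right_inj, inv_inj] at hbb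
      rw [Subtype.ext hbb]
    refine le_trans (le_of_eq (tsum_congr fun i => ?_))
      (ENNReal.tsum_comp_le_tsum_of_injective hinj (fun x => ‖f₂ x ((l : G) * s b)‖ₑ))
    rw [ofReal_norm]
  have hFfin : ∀ q, F q ≠ ⊤ := by
    intro q
    have h1 := hFH 1 q
    rw [inv_one, one_mul] at h1
    refine ne_top_of_le_ne_top ?_ h1
    have h2 : H₁ 1 q ≤ C := le_trans (ENNReal.le_tsum q) (hrow 1)
    have h3 : H₂ 1 q ≤ C := le_trans (ENNReal.le_tsum 1) (hcol q)
    exact (lt_of_le_of_lt (add_le_add h2 h3) (ENNReal.add_lt_top.2 ⟨hC, hC⟩)).ne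
  let F' : Q → ℂ := fun q => ((F q).toReal : ℂ)
  have hF' : ∀ q, ‖F' q‖ₑ = F q := by
    intro q
    rw [← ofReal_norm]
    simp only [F', Complex.norm_real, Real.norm_eq_abs, abs_of_nonneg ENNReal.toReal_nonneg]
    exact ENNReal.ofReal_toReal (hFfin q)
  have hL : IsLittlewood F' :=
    isLittlewood_of_le hC hC (fun x y => by rw [hF']; exact hFH x y) hrow hcol
  have hm := (memℓp_iff_tsum h0 htop).1 (hall F' hL)
  rw [memℓp_iff_tsum h0 htop]
  have hp1 : 1 ≤ p.toReal := by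
    have := ENNReal.toReal_mono htop.ne hp
    simpa using this
  refine ne_top_of_le_ne_top hm ?_
  have hmem : ∀ g : G, g * (s (φ g))⁻¹ ∈ N := by
    intro g
    rw [hker]; simp [hs (φ g)]
  have hinj : Function.Injective (fun g : G => ((φ g, ⟨g * (s (φ g))⁻¹, hmem g⟩) : Q × N)) := by
    intro g g' hgg
    simp only [Prod.mk.injEq, Subtype.mk.injEq] at hgg
    rw [hgg.1] at hgg
    exact mul_right_cancel hgg.2
  calc ∑' g, ‖f g‖ₑ ^ p.toReal
      = ∑' g, (fun i : Q × N => ‖f ((i.2 : G) * s i.1)‖ₑ ^ p.toReal)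
          ((φ g, ⟨g * (s (φ g))⁻¹, hmem g⟩) : Q × N) := by
        refine tsum_congr fun g => ?_
        simp
    _ ≤ ∑' i : Q × N, ‖f ((i.2 : G) * s i.1)‖ₑ ^ p.toReal :=
        ENNReal.tsum_comp_le_tsum_of_injective hinj
          (fun i : Q × N => ‖f ((i.2 : G) * s i.1)‖ₑ ^ p.toReal)
    _ = ∑' q, ∑' n : N, ‖f ((n : G) * s q)‖ₑ ^ p.toReal :=
        ENNReal.tsum_prod (f := fun (q : Q) (n : N) => ‖f ((n : G) * s q)‖ₑ ^ p.toReal)
    _ ≤ ∑' q, (∑' n : N, ‖f ((n : G) * s q)‖ₑ) ^ p.toReal :=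
        ENNReal.tsum_le_tsum fun q => tsum_rpow_le _ hp1
    _ = ∑' q, ‖F' q‖ₑ ^ p.toReal := by
        refine tsum_congr fun q => ?_
        rw [hF']

/-- Extensions with amenable kernel. -/
theorem lit_le_of_extension {G : Type u} {Q : Type v} [Group G] [Group Q] (N : Subgroup G)
    (φ : G →* Q) (hφ : Function.Surjective φ) (hker : ∀ g, g ∈ N ↔ φ g = 1) (hN : Amenable N) :
    Lit G ≤ max 1 (Lit Q) := by
  refine le_of_forall_gt_imp_ge_of_dense fun p hp => ?_
  by_cases htop : p = ⊤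
  · rw [htop]; exact le_top
  have h1 : 1 < p := lt_of_le_of_lt (le_max_left _ _) hp
  have h2 : Lit Q < p := lt_of_le_of_lt (le_max_right _ _) hp
  exact Lit_le_of_good (good_of_extension N φ hφ hker hN h1.le
    (good_of_lit_lt h2 (lt_top_iff_ne_top.2 htop)))

end Pool.Agent.H58.Lit
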